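import Mathlib

namespace Pool.Agent.Results.MP_3ada3c_an.No
open Set Filter Topology Metric BoundedContinuousFunction WeakDual

abbrev DD := closedBall (0 : ℂ) 1
abbrev GG := DD × unitInterval

def LL : Type := List Bool ⊕ ((ℕ → Bool) × GG)

instance : TopologicalSpace LL := ⊥
instance : DiscreteTopology LL := ⟨rfl⟩

def nd (s : List Bool) : LL := Sum.inl s
def gd (γ : ℕ → Bool) (g : GG) : LL := Sum.inr (γ, g)

def br (γ : ℕ → Bool) (k : ℕ) : List Bool := List.ofFn fun i : Fin k => γ i

lemma br_len (γ : ℕ → Bool) (k : ℕ) : (br γ k).length = k := List.length_ofFn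

lemma br_inj {γ γ' : ℕ → Bool} {k m : ℕ} (h : br γ k = br γ' k) (hm : m < k) : γ m = γ' m :=
  congrFun (List.ofFn_injective h) ⟨m, hm⟩

open Classical in
noncomputable def rho (z : ℂ) : DD :=
  if h : z ∈ closedBall (0 : ℂ) 1 then ⟨z, h⟩ else ⟨0, by simp⟩

lemma rho_coe (z : DD) : rho z = z := dif_pos z.2

lemma minmod (h : GG → ℂ) (hc : Continuous h)
    (hd : ∀ t, DifferentiableOn ℂ (fun z => h (rho z, t)) (ball 0 1)) {δ : ℝ} (hδ : 0 < δ)
    (hb : ∀ g : GG, ‖(g.1 : ℂ)‖ = 1 ∨ g.2 = 0 → δ ≤ ‖h g‖) (g : GG) : δ ≤ ‖h g‖ := by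
  have h1 : IsClosed {t : unitInterval | ∀ z, δ ≤ ‖h (z, t)‖} := by
    rw [ofPred_forall]
    exact isClosed_iInter fun z => isClosed_le continuous_const (by fun_prop)
  have h2 : {t : unitInterval | ∀ z, δ ≤ ‖h (z, t)‖} = (Prod.snd '' {g : GG | h g = 0})ᶜ := by
    ext t
    constructor
    · rintro ht ⟨⟨z, s⟩, hz, rfl⟩
      have := ht z
      rw [show h (z, s) = 0 from hz, norm_zero] at this
      linarith
    · intro ht z
      have hne : ∀ w, h (w, t) ≠ 0 := fun w hw => ht ⟨(w, t), hw, rfl⟩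
      have hcl : ContinuousOn (fun z => h (rho z, t)) (closedBall 0 1) := by
        rw [continuousOn_iff_continuous_domRestrict]
        have : (closedBall (0 : ℂ) 1).domRestrict (fun z => h (rho z, t)) = fun z => h (z, t) := by
          funext z; simp only [domRestrict_apply, rho_coe]
        rw [this]; fun_prop
      have h3 := Complex.norm_le_of_forall_mem_frontier_norm_le (f := fun z => (h (rho z, t))⁻¹)
        (U := ball 0 1) isBounded_ball ⟨(hd t).inv fun w _ => hne _, by
          rw [closure_ball _ one_ne_zero]; exact hcl.inv₀ fun w _ => hne _⟩ (C := δ⁻¹)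
        (fun w hw => by
          rw [frontier_ball _ one_ne_zero] at hw
          rw [norm_inv]
          refine inv_anti₀ hδ (hb _ (Or.inl ?_))
          have := rho_coe ⟨w, sphere_subset_closedBall hw⟩
          simp only at this
          rw [this]
          simpa using hw) (z := z) (by rw [closure_ball _ one_ne_zero]; exact z.2)
      rw [rho_coe, norm_inv] at h3
      exact (inv_le_inv₀ (norm_pos_iff.2 (hne z)) hδ).1 h3
  have h3 : IsOpen {t : unitInterval | ∀ z, δ ≤ ‖h (z, t)‖} := by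
    rw [h2]
    exact (isClosedMap_snd_of_compactSpace _ (isClosed_eq hc continuous_const)).isOpen_compl
  have h4 := IsClopen.eq_univ ⟨h1, h3⟩ ⟨0, fun z => hb (z, 0) (Or.inr rfl)⟩
  exact (h4.symm ▸ mem_univ g.2 : g.2 ∈ {t : unitInterval | ∀ z, δ ≤ ‖h (z, t)‖}) g.1

variable (p : ℕ → GG)

def Good (x : LL → ℂ) : Prop := ∀ γ, Continuous (fun g => x (gd γ g)) ∧
  (∀ t, DifferentiableOn ℂ (fun z => x (gd γ (rho z, t))) (ball 0 1)) ∧
  Tendsto (fun k => x (nd (br γ k)) - x (gd γ (p k))) atTop (𝓝 0)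

noncomputable def AA : Subalgebra ℂ (LL →ᵇ ℂ) where
  carrier := {x | Good p x}
  mul_mem' := by
    intro x y hx hy γ
    refine ⟨(hx γ).1.mul (hy γ).1, fun t => ((hx γ).2.1 t).mul ((hy γ).2.1 t), ?_⟩
    have h := (((hy γ).2.2.norm.const_mul ‖x‖).add ((hx γ).2.2.norm.const_mul ‖y‖))
    simp only [norm_zero, mul_zero, add_zero] at h
    refine squeeze_zero_norm (fun k => ?_) h
    have e : (x * y) (nd (br γ k)) - (x * y) (gd γ (p k)) =
        x (nd (br γ k)) * (y (nd (br γ k)) - y (gd γ (p k))) +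
          y (gd γ (p k)) * (x (nd (br γ k)) - x (gd γ (p k))) := by
      simp only [coe_mul, Pi.mul_apply]; ring
    rw [e]
    refine (norm_add_le _ _).trans (add_le_add ?_ ?_) <;> rw [norm_mul] <;>
      exact mul_le_mul_of_nonneg_right (norm_coe_le_norm _ _) (norm_nonneg _)
  add_mem' := by
    intro x y hx hy γ
    refine ⟨(hx γ).1.add (hy γ).1, fun t => ((hx γ).2.1 t).add ((hy γ).2.1 t), ?_⟩
    have h := (hx γ).2.2.add (hy γ).2.2
    rw [add_zero] at h
    refine h.congr fun k => ?_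
    simp only [coe_add, Pi.add_apply]; ring
  algebraMap_mem' c γ := by
    refine ⟨?_, fun t => ?_, ?_⟩ <;> simp [continuous_const]

lemma AA_closed : IsClosed (AA p : Set (LL →ᵇ ℂ)) := by
  refine isClosed_of_closure_subset fun x hx γ => ?_
  obtain ⟨u, hu, hl⟩ := mem_closure_iff_seq_limit.1 hx
  have hU : TendstoUniformly (fun n => (u n : LL → ℂ)) x atTop := tendsto_iff_tendstoUniformly.1 hl
  refine ⟨(hU.comp (gd γ)).continuous (Frequently.of_forall fun n => (hu n γ).1), fun t => ?_, ?_⟩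
  · exact ((hU.comp fun z => gd γ (rho z, t)).tendstoUniformlyOn.tendstoLocallyUniformlyOn).differentiableOn
      (Eventually.of_forall fun n => (hu n γ).2.1 t) isOpen_ball
  · refine Metric.tendsto_nhds.2 fun ε hε => ?_
    obtain ⟨n, hn⟩ := (Metric.tendsto_nhds.1 hl (ε / 3) (by positivity)).exists
    filter_upwards [Metric.tendsto_nhds.1 (hu n γ).2.2 (ε / 3) (by positivity)] with k hk
    have h1 := dist_coe_le_dist (f := u n) (g := x) (nd (br γ k))
    have h2 := dist_coe_le_dist (f := u n) (g := x) (gd γ (p k))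
    have h3 := dist_sub_sub_le (x (nd (br γ k))) (x (gd γ (p k))) (u n (nd (br γ k))) (u n (gd γ (p k)))
    have h4 := dist_triangle (x (nd (br γ k)) - x (gd γ (p k)))
      (u n (nd (br γ k)) - u n (gd γ (p k))) 0
    rw [dist_comm] at h1 h2
    linarith

instance : CompleteSpace (AA p) := (AA_closed p).completeSpace_coe

noncomputable def mkA (x : LL → ℂ) (C : ℝ) (hC : ∀ l, ‖x l‖ ≤ C) (hx : Good p x) : AA p :=
  ⟨ofNormedAddCommGroupDiscrete x C hC, hx⟩

lemma unit (x : AA p) {δ : ℝ} (hδ : 0 < δ) (h : ∀ l, δ ≤ ‖x.1 l‖) : IsUnit x := by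
  have hne : ∀ l, x.1 l ≠ 0 := fun l => norm_pos_iff.1 (hδ.trans_le (h l))
  refine IsUnit.of_mul_eq_one (mkA p (fun l => (x.1 l)⁻¹) δ⁻¹
    (fun l => by rw [norm_inv]; exact inv_anti₀ hδ (h l)) fun γ => ⟨(x.2 γ).1.inv₀ fun _ => hne _,
      fun t => ((x.2 γ).2.1 t).inv fun _ _ => hne _, ?_⟩) ?_
  · have h1 := (x.2 γ).2.2.norm.const_mul (δ⁻¹ * δ⁻¹)
    simp only [norm_zero, mul_zero] at h1
    refine squeeze_zero_norm (fun k => ?_) h1
    rw [inv_sub_inv (hne _) (hne _), norm_div, norm_sub_rev, norm_mul, div_eq_inv_mul, mul_inv]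
    refine mul_le_mul_of_nonneg_right ?_ (norm_nonneg _)
    exact mul_le_mul (inv_anti₀ hδ (h _)) (inv_anti₀ hδ (h _)) (by positivity) (by positivity)
  · ext l
    exact mul_inv_cancel₀ (hne l)

noncomputable def evh (l : LL) : AA p →ₐ[ℂ] ℂ where
  toFun x := x.1 l
  map_one' := rfl
  map_mul' _ _ := rfl
  map_zero' := rfl
  map_add' _ _ := rfl
  commutes' c := by simp

noncomputable def ev (l : LL) : characterSpace ℂ (AA p) := CharacterSpace.equivAlgHom.symm (evh p l)

lemma ev_apply (l : LL) (x : AA p) : ev p l x = x.1 l := rfl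

lemma spec (hp : ∀ g : GG, ‖(g.1 : ℂ)‖ = 1 ∨ g.2 = 0 → ∃ φ : ℕ → ℕ, Tendsto φ atTop atTop ∧
    Tendsto (fun k => p (φ k)) atTop (𝓝 g)) (x : AA p) :
    spectrum ℂ x = closure ((fun φ : characterSpace ℂ (AA p) => φ x) '' range fun s => ev p (nd s)) := by
  refine subset_antisymm (fun c hc => ?_) (closure_minimal ?_ (spectrum.isClosed x))
  · by_contra h
    rw [Metric.mem_closure_iff] at h
    push Not at h
    obtain ⟨δ, hδ, h⟩ := h
    set y := algebraMap ℂ (AA p) c - x with hy
    have hyl : ∀ l, y.1 l = c - x.1 l := fun l => by simp [hy]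
    have h1 : ∀ s, δ ≤ ‖y.1 (nd s)‖ := fun s => by
      rw [hyl, ← dist_eq_norm]; exact h _ ⟨_, ⟨s, rfl⟩, rfl⟩
    refine hc (unit p y hδ fun l => ?_)
    rcases l with s | ⟨γ, g⟩
    · exact h1 s
    · refine minmod (fun g => y.1 (gd γ g)) (y.2 γ).1 (y.2 γ).2.1 hδ (fun g hg => ?_) g
      obtain ⟨φ, a1, a2⟩ := hp g hg
      have h2 := (((y.2 γ).2.2.comp a1).add (((y.2 γ).1.tendsto g).comp a2)).norm
      simp only [Function.comp, sub_add_cancel, zero_add] at h2
      exact ge_of_tendsto' h2 fun k => h1 _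
  · rintro _ ⟨_, ⟨s, rfl⟩, rfl⟩
    exact AlgHom.apply_mem_spectrum (evh p (nd s)) x

noncomputable def co (f : C(GG, ℂ)) (hf : ∀ t, DifferentiableOn ℂ (fun z => f (rho z, t)) (ball 0 1)) :
    AA p :=
  mkA p (Sum.elim (fun s => f (p s.length)) fun q => f q.2) ‖f‖
    (by rintro (s | q) <;> exact f.norm_coe_le_norm _) fun γ => ⟨f.continuous, hf, by
      simp [nd, gd, br_len]⟩

open Classical in
noncomputable def ee (γ : ℕ → Bool) : AA p :=
  mkA p (Sum.elim (fun s => if s = br γ s.length then 1 else 0) fun q => if q.1 = γ then 1 else 0) 1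
    (by rintro (s | q) <;> simp only [Sum.elim_inl, Sum.elim_inr] <;> split_ifs <;> simp)
    fun γ' => ⟨continuous_const (y := if γ' = γ then (1 : ℂ) else 0),
      fun _ => differentiableOn_const (if γ' = γ then (1 : ℂ) else 0), by
      simp only [nd, gd, Sum.elim_inl, Sum.elim_inr, br_len]
      split_ifs with h
      · simp [h]
      · obtain ⟨m, hm⟩ := Function.ne_iff.1 h
        refine tendsto_const_nhds.congr' ?_
        filter_upwards [eventually_gt_atTop m] with k hk
        rw [if_neg fun h' => hm (br_inj h' hk), sub_zero]⟩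

open Classical in
noncomputable def dl (s : List Bool) : AA p :=
  mkA p (Sum.elim (fun s' => if s' = s then 1 else 0) fun _ => 0) 1
    (by rintro (s | q) <;> simp only [Sum.elim_inl, Sum.elim_inr]; split_ifs <;> simp; simp)
    fun γ' => ⟨continuous_const (y := (0 : ℂ)), fun _ => differentiableOn_const (0 : ℂ), by
      simp only [nd, gd, Sum.elim_inl, Sum.elim_inr]
      refine tendsto_const_nhds.congr' ?_
      filter_upwards [eventually_gt_atTop s.length] with k hk
      rw [if_neg fun h' => by rw [← h', br_len] at hk; exact lt_irrefl _ hk, sub_zero]⟩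

lemma mul_dl (x : AA p) (s : List Bool) : x * dl p s = x.1 (nd s) • dl p s := by
  classical
  ext l
  rcases l with s' | q
  · change x.1 (nd s') * (if s' = s then 1 else 0) = x.1 (nd s) * (if s' = s then 1 else 0)
    split_ifs with h
    · rw [h]
    · simp
  · change x.1 _ * 0 = x.1 (nd s) * 0
    simp

lemma ee_mul {γ γ' : ℕ → Bool} {m : ℕ} (h : γ m ≠ γ' m) :
    ee p γ * ee p γ' = (∑ k ∈ Finset.range (m + 1), dl p (br γ k)) * ee p γ' := by
  classical
  ext l
  change evh p l (ee p γ * ee p γ') =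
    evh p l ((∑ k ∈ Finset.range (m + 1), dl p (br γ k)) * ee p γ')
  simp only [map_mul, map_sum]
  rcases l with s | q
  · change (if s = br γ s.length then (1 : ℂ) else 0) * (if s = br γ' s.length then 1 else 0) =
      (∑ k ∈ Finset.range (m + 1), if s = br γ k then (1 : ℂ) else 0) *
        (if s = br γ' s.length then 1 else 0)
    by_cases h2 : s = br γ' s.length
    · congr 1
      by_cases h1 : s = br γ s.length
      · rw [if_pos h1, Finset.sum_eq_single s.length, if_pos h1]
        · intro k _ hk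
          exact if_neg fun h3 => hk (by rw [h3, br_len])
        · intro h3
          exact absurd (br_inj (h1.symm.trans h2) (by simpa using h3)) h
      · rw [if_neg h1]
        exact (Finset.sum_eq_zero fun k _ => if_neg fun h3 => h1 (by rw [h3, br_len])).symm
    · simp [if_neg h2]
  · change (if q.1 = γ then (1 : ℂ) else 0) * (if q.1 = γ' then 1 else 0) =
      (∑ k ∈ Finset.range (m + 1), (0 : ℂ)) * (if q.1 = γ' then 1 else 0)
    by_cases h1 : q.1 = γ
    · rw [if_neg (show ¬ q.1 = γ' from fun h2 => h (by rw [← h1, h2]))]; simp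
    · simp [h1]

lemma nonsep (hp : ∀ k, ‖((p k).1 : ℂ)‖ = 1 ∨ (p k).2 = 0) :
    ¬ TopologicalSpace.SeparableSpace (characterSpace ℂ (AA p)) := by
  intro H
  let Z : AA p := co p ⟨fun g => g.1, by fun_prop⟩ fun t =>
    differentiableOn_id.congr fun z hz => congrArg Subtype.val (rho_coe ⟨z, ball_subset_closedBall hz⟩)
  let T : AA p := co p ⟨fun g => ((g.2 : ℝ) : ℂ), by fun_prop⟩ fun t =>
    differentiableOn_const (((t : ℝ) : ℂ))
  have hc : ∀ x : AA p, Continuous fun φ : characterSpace ℂ (AA p) => φ x := fun x =>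
    (WeakDual.eval_continuous x).comp continuous_subtype_val
  let O : (ℕ → Bool) → Set (characterSpace ℂ (AA p)) := fun γ =>
    {φ | φ (ee p γ) ≠ 0} ∩ ({φ | ‖φ Z‖ < 1} ∩ {φ | φ T ≠ 0})
  have h1 : Countable (ℕ → Bool) := Pairwise.countable_of_isOpen_disjoint (s := O)
    (fun γ γ' hγ => by
      refine disjoint_left.2 fun φ a b => ?_
      obtain ⟨m, hm⟩ := Function.ne_iff.1 hγ
      have h2 := mul_ne_zero a.1 b.1
      rw [← map_mul, ee_mul p hm, map_mul, map_sum] at h2
      obtain ⟨k, -, hk⟩ := Finset.exists_ne_zero_of_sum_ne_zero (left_ne_zero_of_mul h2)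
      have h3 : ∀ x : AA p, φ x = x.1 (nd (br γ k)) := fun x => by
        have := congrArg φ (mul_dl p x (br γ k))
        rw [map_mul, map_smul, smul_eq_mul] at this
        exact mul_right_cancel₀ hk this
      have h4 := a.2.1
      have h5 := a.2.2
      simp only [mem_ofPred_eq, h3] at h4 h5
      rcases hp (br γ k).length with h | h
      · exact h4.ne h
      · refine h5 ?_
        change ((((p (br γ k).length).2 : ℝ)) : ℂ) = 0
        rw [h]; simp)
    (fun γ => (isOpen_ne_fun (hc _) continuous_const).inter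
      ((isOpen_lt (hc _).norm continuous_const).inter (isOpen_ne_fun (hc _) continuous_const)))
    fun γ => ⟨ev p (gd γ (⟨0, by simp⟩, 1)), by
      classical
      refine ⟨?_, ?_, ?_⟩
      · change (if γ = γ then (1 : ℂ) else 0) ≠ 0
        simp
      · change ‖(0 : ℂ)‖ < 1
        simp
      · change (((1 : unitInterval) : ℝ) : ℂ) ≠ 0
        simp⟩
  have h2 := Cardinal.mk_le_aleph0_iff.2 h1
  simp only [Cardinal.mk_pi, Cardinal.mk_fintype, Fintype.card_bool, Cardinal.prod_const,
    Cardinal.mk_nat, Cardinal.lift_aleph0, Cardinal.lift_natCast, Nat.cast_ofNat,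
    Cardinal.lift_ofNat, Cardinal.two_power_aleph0] at h2
  exact absurd h2 Cardinal.aleph0_lt_continuum.not_ge

theorem result : ∃ (A : Type) (_ : NormedCommRing A) (_ : NormedAlgebra ℂ A) (_ : CompleteSpace A),
    (∃ S : Set (characterSpace ℂ A), S.Countable ∧
      ∀ x : A, spectrum ℂ x = closure ((fun φ : characterSpace ℂ A => φ x) '' S)) ∧
    ¬ TopologicalSpace.SeparableSpace (characterSpace ℂ A) := by
  let K : Set GG := {g | ‖(g.1 : ℂ)‖ = 1 ∨ g.2 = 0}
  haveI : Nonempty K := ⟨⟨(⟨0, by simp⟩, 0), Or.inr rfl⟩⟩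
  let p : ℕ → GG := fun n => TopologicalSpace.denseSeq K (Nat.unpair n).1
  refine ⟨AA p, inferInstance, inferInstance, inferInstance,
    ⟨_, countable_range _, spec p fun g hg => ?_⟩,
    nonsep p fun k => (TopologicalSpace.denseSeq K (Nat.unpair k).1).2⟩
  obtain ⟨u, hu, hl⟩ := mem_closure_iff_seq_limit.1 (TopologicalSpace.denseRange_denseSeq K ⟨g, hg⟩)
  choose m hm using hu
  refine ⟨fun k => Nat.pair (m k) k, tendsto_atTop_mono (fun k => Nat.right_le_pair _ _) tendsto_id, ?_⟩
  simp only [p, Nat.unpair_pair, hm]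
  exact (continuous_subtype_val.tendsto _).comp hl

end Pool.Agent.Results.MP_3ada3c_an.No
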